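import Pool.Agent.H8.GabR

set_option autoImplicit false

namespace Pool.Agent.Results.MP_fbf723_an.Both

open Pool.Agent.H25.Gab

theorem result (a b : ℝ) (g : L2R) (f : ℤ × ℤ → L2R) (hf : IsGabor a b g f) (hF : IsFrame f)
    (h : (∃ σ : ℕ ≃ ℤ × ℤ, HasBoundedRep fun k => f (σ k)) ∨
      ∃ σ : ℤ ≃ ℤ × ℤ, HasBoundedRep fun k => f (σ k)) :
    ((∃ σ : ℕ ≃ ℤ × ℤ, HasBoundedRep fun k => f (σ k)) ∧
      ∃ σ : ℤ ≃ ℤ × ℤ, HasBoundedRep fun k => f (σ k)) ∧ IsRieszBasis f := by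
  have hR := main a b g f hf hF h
  obtain ⟨σ⟩ : Nonempty (ℕ ≃ ℤ × ℤ) := nonempty_equiv_of_countable
  obtain ⟨τ⟩ : Nonempty (ℤ ≃ ℤ × ℤ) := nonempty_equiv_of_countable
  exact ⟨⟨⟨σ, Pool.Agent.H8.GabR.riesz_rep (add_left_injective 1) f hR σ⟩,
    ⟨τ, Pool.Agent.H8.GabR.riesz_rep (add_left_injective 1) f hR τ⟩⟩, hR⟩

end Pool.Agent.Results.MP_fbf723_an.Both
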